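import Pool.Agent.helper55.NS.J1
import Pool.Agent.helper34.NS.J2

open Finset

namespace Pool.Agent.helper51.NS

open Pool.Agent.helper43.NO Pool.Agent.helper43.NS
open Pool.Agent.helper55.NS Pool.Agent.helper34.NS

lemma one_le_pr (P : Finset ℕ) (B : ℝ) (hB : 0 ≤ B) : 1 ≤ pr P B := by
  unfold pr
  have h : ∏ p ∈ P, (1 : ℝ) ≤ ∏ p ∈ P, (1 + B / (p : ℝ)) := by
    apply Finset.prod_le_prod
    · intro p _
      norm_num
    · intro p _
      have : 0 ≤ B / (p : ℝ) := by positivity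
      linarith
  simpa using h

/-- the product expands over the families of subsets -/
lemma prod_Gf {ι : Type} [Fintype ι] [DecidableEq ι] (P : Finset ℕ) (k : ι → ℕ)
    (c : ι → Finset ℕ → ℝ) (n : ℕ) :
    ∏ i, Gf P (c i) (n - k i) =
      ∑ τ ∈ Fintype.piFinset (fun _ : ι => P.powerset),
        if (∀ i, (∏ p ∈ τ i, p) ∣ (n - k i)) then ∏ i, c i (τ i) else 0 := by
  unfold Gf
  rw [Finset.prod_univ_sum]
  refine Finset.sum_congr rfl fun τ _ => ?_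
  split_ifs with h
  · refine Finset.prod_congr rfl fun i _ => ?_
    rw [if_pos (h i)]
  · push Not at h
    obtain ⟨i, hi⟩ := h
    exact Finset.prod_eq_zero (Finset.mem_univ i) (if_neg hi)

lemma sum_prod_Gf {ι : Type} [Fintype ι] [DecidableEq ι] (P : Finset ℕ) (K x : ℕ) (k : ι → ℕ)
    (c : ι → Finset ℕ → ℝ) :
    ∑ n ∈ Ioc K x, ∏ i, Gf P (c i) (n - k i) =
      ∑ τ ∈ Fintype.piFinset (fun _ : ι => P.powerset), (∏ i, c i (τ i)) *
        (((Ioc K x).filter (fun n => ∀ i, (∏ p ∈ τ i, p) ∣ (n - k i))).card : ℝ) := by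
  simp_rw [prod_Gf]
  rw [Finset.sum_comm]
  refine Finset.sum_congr rfl fun τ _ => ?_
  rw [← Finset.sum_filter, Finset.sum_const, nsmul_eq_mul, mul_comm]

lemma prod_Mn {ι : Type} [Fintype ι] [DecidableEq ι] (P : Finset ℕ) (c : ι → Finset ℕ → ℝ) :
    ∏ i, Mn P (c i) =
      ∑ τ ∈ Fintype.piFinset (fun _ : ι => P.powerset), (∏ i, c i (τ i)) *
        ∏ i, (1 / ((∏ p ∈ τ i, p : ℕ) : ℝ)) := by
  unfold Mn
  rw [Finset.prod_univ_sum]
  refine Finset.sum_congr rfl fun τ _ => ?_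
  rw [← Finset.prod_mul_distrib]
  refine Finset.prod_congr rfl fun i _ => ?_
  rw [mul_one_div]

lemma prod_pos' {P : Finset ℕ} (hP : ∀ p ∈ P, p.Prime) {T : Finset ℕ} (hT : T ⊆ P) :
    (0 : ℝ) < ((∏ p ∈ T, p : ℕ) : ℝ) := by
  have : 0 < ∏ p ∈ T, p := Finset.prod_pos fun p hp => (hP p (hT hp)).pos
  exact_mod_cast this

/-- sum of the absolute values of the coefficients -/
lemma sum_abs_le (P : Finset ℕ) (z D : ℕ) (B C : ℝ) (c : Finset ℕ → ℝ)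
    (hP : ∀ p ∈ P, p.Prime ∧ p ≤ z) (hz : 1 ≤ z) (hB : 0 ≤ B) (hC : 1 ≤ C)
    (hc : ∀ T ∈ P.powerset, |c T| ≤ C * B ^ T.card)
    (hD : ∀ T ∈ P.powerset, D < T.card → c T = 0) :
    ∑ T ∈ P.powerset, |c T| ≤ (z : ℝ) ^ D * (C * pr P B) := by
  rw [← sum_pow_div, Finset.mul_sum, Finset.mul_sum]
  refine Finset.sum_le_sum fun T hT => ?_
  have hTP : T ⊆ P := Finset.mem_powerset.1 hT
  have hpos : (0 : ℝ) < ((∏ p ∈ T, p : ℕ) : ℝ) := prod_pos' (fun p hp => (hP p hp).1) hTP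
  by_cases h : D < T.card
  · rw [hD T hT h, abs_zero]
    positivity
  · push Not at h
    have hz1 : (1 : ℝ) ≤ z := by exact_mod_cast hz
    have h1 : ((∏ p ∈ T, p : ℕ) : ℝ) ≤ (z : ℝ) ^ D := by
      push_cast
      calc ∏ p ∈ T, (p : ℝ) ≤ ∏ p ∈ T, (z : ℝ) := by
            apply Finset.prod_le_prod
            · intro p _
              positivity
            · intro p hp
              exact_mod_cast (hP p (hTP hp)).2
        _ = (z : ℝ) ^ T.card := by rw [Finset.prod_const]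
        _ ≤ (z : ℝ) ^ D := pow_le_pow_right₀ hz1 h
    calc |c T| ≤ C * B ^ T.card := hc T hT
      _ = ((∏ p ∈ T, p : ℕ) : ℝ) * (C * (B ^ T.card / ((∏ p ∈ T, p : ℕ) : ℝ))) := by
          field_simp
      _ ≤ (z : ℝ) ^ D * (C * (B ^ T.card / ((∏ p ∈ T, p : ℕ) : ℝ))) := by
          have : 0 ≤ C := by linarith
          gcongr

lemma joint_fin {ι : Type} [Fintype ι] [DecidableEq ι] (P : Finset ℕ) (K x z P0 D : ℕ) (B C : ℝ)
    (k : ι → ℕ) (c : ι → Finset ℕ → ℝ)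
    (hP : ∀ p ∈ P, p.Prime ∧ K < p ∧ P0 ≤ p ∧ p ≤ z) (hP0 : 1 ≤ P0) (hz : 1 ≤ z)
    (hk : ∀ i, k i ∈ Icc 1 K) (hinj : Function.Injective k) (hKx : K ≤ x) (hB : 0 ≤ B)
    (hC : 1 ≤ C)
    (hc : ∀ i, ∀ T ∈ P.powerset, |c i T| ≤ C * B ^ T.card)
    (hD : ∀ i, ∀ T ∈ P.powerset, D < T.card → c i T = 0) :
    |∑ n ∈ Ioc K x, ∏ i, Gf P (c i) (n - k i) - ((x : ℝ) - K) * ∏ i, Mn P (c i)| ≤
      ((z : ℝ) ^ D * (C * pr P B)) ^ (Fintype.card ι) +
      x * (C ^ (Fintype.card ι) * ((Fintype.card ι : ℝ) ^ 2 * B ^ 2 * (∑ p ∈ P, 1 / (p : ℝ)) / P0 *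
        (pr P B) ^ (Fintype.card ι))) := by
  have hC0 : 0 ≤ C := by linarith
  have hxK : (0 : ℝ) ≤ (x : ℝ) - K := by
    have : (K : ℝ) ≤ x := by exact_mod_cast hKx
    linarith
  have hxK' : (x : ℝ) - K ≤ x := by
    have : (0 : ℝ) ≤ K := Nat.cast_nonneg K
    linarith
  have hPK : ∀ p ∈ P, p.Prime ∧ K < p := fun p hp => ⟨(hP p hp).1, (hP p hp).2.1⟩
  have hPz : ∀ p ∈ P, p.Prime ∧ p ≤ z := fun p hp => ⟨(hP p hp).1, (hP p hp).2.2.2⟩
  have hPP : ∀ p ∈ P, p.Prime ∧ P0 ≤ p := fun p hp => ⟨(hP p hp).1, (hP p hp).2.2.1⟩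
  rw [sum_prod_Gf, prod_Mn, Finset.mul_sum, ← Finset.sum_sub_distrib]
  refine (Finset.abs_sum_le_sum_abs _ _).trans ?_
  set Ω := Fintype.piFinset (fun _ : ι => P.powerset) with hΩ
  have hmem : ∀ τ ∈ Ω, ∀ i, τ i ⊆ P := by
    intro τ hτ i
    rw [hΩ, Fintype.mem_piFinset] at hτ
    exact Finset.mem_powerset.1 (hτ i)
  -- pointwise bound
  have hpt : ∀ τ ∈ Ω, |(∏ i, c i (τ i)) *
        (((Ioc K x).filter (fun n => ∀ i, (∏ p ∈ τ i, p) ∣ (n - k i))).card : ℝ) -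
        ((x : ℝ) - K) * ((∏ i, c i (τ i)) * ∏ i, (1 / ((∏ p ∈ τ i, p : ℕ) : ℝ)))| ≤
      ∏ i, |c i (τ i)| + (if (∃ i j, i ≠ j ∧ ¬ Disjoint (τ i) (τ j)) then
        (x : ℝ) * (C ^ (Fintype.card ι) *
          ∏ i, (B ^ (τ i).card / ((∏ p ∈ τ i, p : ℕ) : ℝ))) else 0) := by
    intro τ hτ
    have hτP := hmem τ hτ
    have hposi : ∀ i, (0 : ℝ) < ((∏ p ∈ τ i, p : ℕ) : ℝ) :=
      fun i => prod_pos' (fun p hp => (hP p hp).1) (hτP i)
    have hfac : (∏ i, c i (τ i)) *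
        (((Ioc K x).filter (fun n => ∀ i, (∏ p ∈ τ i, p) ∣ (n - k i))).card : ℝ) -
        ((x : ℝ) - K) * ((∏ i, c i (τ i)) * ∏ i, (1 / ((∏ p ∈ τ i, p : ℕ) : ℝ))) =
        (∏ i, c i (τ i)) *
        ((((Ioc K x).filter (fun n => ∀ i, (∏ p ∈ τ i, p) ∣ (n - k i))).card : ℝ) -
        ((x : ℝ) - K) * ∏ i, (1 / ((∏ p ∈ τ i, p : ℕ) : ℝ))) := by ring
    rw [hfac, abs_mul, Finset.abs_prod]
    by_cases hconf : ∃ i j, i ≠ j ∧ ¬ Disjoint (τ i) (τ j)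
    · rw [if_pos hconf, count_conf P K x k τ hPK hk hinj hτP hconf]
      rw [Finset.card_empty, Nat.cast_zero, zero_sub, abs_neg]
      have h0 : 0 ≤ ((x : ℝ) - K) * ∏ i, (1 / ((∏ p ∈ τ i, p : ℕ) : ℝ)) := by positivity
      rw [abs_of_nonneg h0]
      have h1 : ∏ i, |c i (τ i)| ≤ ∏ i, (C * B ^ (τ i).card) := by
        apply Finset.prod_le_prod
        · intro i _
          positivity
        · intro i _
          exact hc i (τ i) (Finset.mem_powerset.2 (hτP i))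
      have h2 : (∏ i, |c i (τ i)|) * (((x : ℝ) - K) * ∏ i, (1 / ((∏ p ∈ τ i, p : ℕ) : ℝ))) ≤
          (∏ i, (C * B ^ (τ i).card)) * (x * ∏ i, (1 / ((∏ p ∈ τ i, p : ℕ) : ℝ))) := by
        have hp1 : 0 ≤ ∏ i, (1 / ((∏ p ∈ τ i, p : ℕ) : ℝ)) := by positivity
        have hp2 : 0 ≤ ∏ i, (C * B ^ (τ i).card) := by positivity
        gcongr
      have h3 : (∏ i, (C * B ^ (τ i).card)) * (x * ∏ i, (1 / ((∏ p ∈ τ i, p : ℕ) : ℝ))) =
          x * (C ^ (Fintype.card ι) * ∏ i, (B ^ (τ i).card / ((∏ p ∈ τ i, p : ℕ) : ℝ))) := by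
        rw [Finset.prod_mul_distrib, Finset.prod_const, Finset.card_univ]
        have h4 : ∏ i, (B ^ (τ i).card / ((∏ p ∈ τ i, p : ℕ) : ℝ)) =
            (∏ i, B ^ (τ i).card) * ∏ i, (1 / ((∏ p ∈ τ i, p : ℕ) : ℝ)) := by
          rw [← Finset.prod_mul_distrib]
          refine Finset.prod_congr rfl fun i _ => ?_
          rw [mul_one_div]
        rw [h4]
        ring
      have h5 : 0 ≤ ∏ i, |c i (τ i)| := by positivity
      linarith
    · rw [if_neg hconf, add_zero]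
      push Not at hconf
      have h1 := count_disj P K x k τ hPK hk hKx hτP hconf
      have h5 : 0 ≤ ∏ i, |c i (τ i)| := by positivity
      calc (∏ i, |c i (τ i)|) * _ ≤ (∏ i, |c i (τ i)|) * 1 := by gcongr
        _ = _ := mul_one _
  refine (Finset.sum_le_sum hpt).trans ?_
  rw [Finset.sum_add_distrib]
  refine add_le_add ?_ ?_
  · rw [hΩ, ← Finset.prod_univ_sum (fun _ : ι => P.powerset) (fun i T => |c i T|)]
    calc ∏ i, ∑ T ∈ P.powerset, |c i T| ≤ ∏ _i : ι, ((z : ℝ) ^ D * (C * pr P B)) := by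
          apply Finset.prod_le_prod
          · intro i _
            positivity
          · intro i _
            exact sum_abs_le P z D B C (c i) hPz hz hB hC (hc i) (hD i)
      _ = _ := by rw [Finset.prod_const, Finset.card_univ]
  · rw [← Finset.sum_filter, ← Finset.mul_sum, ← Finset.mul_sum]
    have h1 := conflict_mass (ι := ι) P P0 B hPP hP0 hB
    gcongr

theorem joint (P : Finset ℕ) (K x z P0 D N : ℕ) (B C : ℝ) (S : Finset ℕ) (c : ℕ → Finset ℕ → ℝ)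
    (hP : ∀ p ∈ P, p.Prime ∧ K < p ∧ P0 ≤ p ∧ p ≤ z) (hP0 : 1 ≤ P0) (hz : 1 ≤ z)
    (hS : S ⊆ Icc 1 K) (hSN : S.card ≤ N) (hKx : K ≤ x) (hB : 0 ≤ B) (hC : 1 ≤ C)
    (hc : ∀ k ∈ S, ∀ T ∈ P.powerset, |c k T| ≤ C * B ^ T.card)
    (hD : ∀ k ∈ S, ∀ T ∈ P.powerset, D < T.card → c k T = 0) :
    |∑ n ∈ Ioc K x, ∏ k ∈ S, Gf P (c k) (n - k) - ((x : ℝ) - K) * ∏ k ∈ S, Mn P (c k)| ≤
      ((z : ℝ) ^ (D * N) + x * (N : ℝ) ^ 2 * B ^ 2 * (∑ p ∈ P, 1 / (p : ℝ)) / P0) *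
        (C * pr P B) ^ N := by
  have hpr := one_le_pr P B hB
  have hC0 : 0 ≤ C := by linarith
  have hpr0 : 0 ≤ pr P B := by linarith
  have hz1 : (1 : ℝ) ≤ z := by exact_mod_cast hz
  have hCp : 1 ≤ C * pr P B := one_le_mul_of_one_le_of_one_le hC hpr
  have hmain := joint_fin (ι := S) P K x z P0 D B C (fun i => (i : ℕ)) (fun i => c i) hP hP0 hz
    (fun i => hS i.2) Subtype.val_injective hKx hB hC (fun i => hc i i.2) (fun i => hD i i.2)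
  have e1 : ∀ n, ∏ i : S, Gf P (c i) (n - (i : ℕ)) = ∏ k ∈ S, Gf P (c k) (n - k) :=
    fun n => Finset.prod_coe_sort S (fun k => Gf P (c k) (n - k))
  have e2 : ∏ i : S, Mn P (c i) = ∏ k ∈ S, Mn P (c k) :=
    Finset.prod_coe_sort S (fun k => Mn P (c k))
  simp only [e1, e2, Fintype.card_coe] at hmain
  refine hmain.trans ?_
  set s := ∑ p ∈ P, 1 / (p : ℝ) with hs
  have hs0 : 0 ≤ s := Finset.sum_nonneg fun p _ => by positivity
  have hm : (S.card : ℝ) ≤ N := by exact_mod_cast hSN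
  have hP00 : (0 : ℝ) < P0 := by exact_mod_cast hP0
  have hx0 : (0 : ℝ) ≤ x := Nat.cast_nonneg x
  have h1 : ((z : ℝ) ^ D * (C * pr P B)) ^ S.card ≤ (z : ℝ) ^ (D * N) * (C * pr P B) ^ N := by
    rw [pow_mul, ← mul_pow]
    apply pow_le_pow_right₀ _ hSN
    exact one_le_mul_of_one_le_of_one_le (one_le_pow₀ hz1) hCp
  have h2 : (x : ℝ) * (C ^ S.card * ((S.card : ℝ) ^ 2 * B ^ 2 * s / P0 * (pr P B) ^ S.card)) ≤
      x * (N : ℝ) ^ 2 * B ^ 2 * s / P0 * (C * pr P B) ^ N := by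
    have h3 : (x : ℝ) * (C ^ S.card * ((S.card : ℝ) ^ 2 * B ^ 2 * s / P0 * (pr P B) ^ S.card)) =
        x * (S.card : ℝ) ^ 2 * B ^ 2 * s / P0 * (C * pr P B) ^ S.card := by
      rw [mul_pow]; ring
    rw [h3]
    gcongr
  rw [add_mul]
  exact add_le_add h1 h2

end Pool.Agent.helper51.NS
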